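import Pool.Agent.Lib.MP_993073_gt.Defs
import Pool.Agent.Lib.MP_993073_gt.Check
import Pool.Agent.Lib.MP_993073_gt.Einst
import Pool.Agent.Lib.MP_993073_gt.Mfd
import Pool.Agent.Lib.MP_993073_gt.Neck
import Pool.Agent.Lib.MP_993073_gt.Model
import Pool.Agent.Lib.MP_993073_gt.Sign
import Pool.Agent.Lib.MP_993073_gt.Indep

/-!
# MP_993073_gt: the total Q-curvature is unbounded above in every even dimension `n ≥ 6`

The definitions are in `Pool.Agent.Lib.MP_993073_gt.Defs` (and `IsSol` in `Check`).

Idea of the proof.  Embed the neck `S^a × S^b × ℝ` (`a + b = n - 1`) in a small ball of `M` and put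
on it the metrics `g_{S^a} + l g_{S^b} + φ_L(s)² ds²` with `φ_L = 1 + L η'`, where `l` is large and
`a = 2` if `n/2` is odd, `a = 4` if `n/2` is even; outside of the neck the metric does not depend
on `L`.  On the neck the Q-curvature is a constant `q` which does not depend on `L`, so the total
Q-curvature is an affine function of `L` with slope a positive multiple of `q`.  The ambient
equation of such block metrics gives a quadratic recursion for the coefficients of the
renormalised volume `v = det(g⁻¹ g_ρ)^(1/2)`, one has `q = 2^(n/2-1) (n/2-1)! (n/2)! v_(n/2)`, and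
the recursion shows `q > 0`.
-/

open scoped Manifold ContDiff
open Filter PowerSeries

namespace Pool.Agent.Results.MP_993073_gt.TotalQUnbounded

open Pool.QCurv

/-- Every nonempty closed smooth manifold `M` of even dimension `n ≥ 6` carries a sequence of
smooth Riemannian metrics `g k` whose total Q-curvature tends to `+∞` (last conjunct).

The first two conjuncts check the definition of the Q-curvature of a smooth (pseudo-)Riemannian
metric `G` on an open subset `V` of `ℝⁿ`: the Fefferman–Graham equation has a solution (namely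
`fam G (n / 2)`), every solution gives the same Q-curvature, and if `Ric(G) = (n - 1) c G` then
`Q = (n - 1)! c^(n/2)` (for the round unit sphere `Q = (n - 1)!`).  The third and fourth conjuncts
say that the total Q-curvature `totalQ g c` is well defined: finite chart covers `c` exist and its
value does not depend on `c`. -/
theorem result (n : ℕ) (hn : Even n) (h6 : 6 ≤ n) (M : Type*) [TopologicalSpace M]
    [ChartedSpace (E n) M] [IsManifold (𝓡 n) ∞ M] [CompactSpace M] [T2Space M] [Nonempty M] :
    (∀ (V : Set (E n)) (G : E n → Mat n ℝ), IsOpen V → (∀ y ∈ V, (G y).det ≠ 0) →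
      IsSol V G (fam G (n / 2)) ∧ ∀ H, IsSol V G H → ∀ x ∈ V,
        Qcurv G x = (-1) ^ (n / 2 - 1) * coeff 0 (logIter H (n / 2 - 1) x)) ∧
    (∀ (V : Set (E n)) (G : E n → Mat n ℝ) (c : ℝ), IsOpen V → (∀ y ∈ V, (G y).det ≠ 0) →
      (∀ i j, ContDiffOn ℝ ∞ (fun y => G y i j) V) →
      (∀ y ∈ V, ric (fun z => (G z).map C) y = ((((n : ℝ) - 1) * c) • G y).map C) →
      ∀ x ∈ V, Qcurv G x = ((n - 1).factorial : ℝ) * c ^ (n / 2)) ∧
    Nonempty (ChartCover n M) ∧
    (∀ (g : RMetric n M) (c c' : ChartCover n M), totalQ g c = totalQ g c') ∧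
    ∃ g : ℕ → RMetric n M, ∀ c : ChartCover n M,
      Tendsto (fun k => totalQ (g k) c) atTop atTop := by
  refine ⟨fun V G hV hdet => ⟨isSol_fam hn (by omega) hV hdet, fun H hH x hx =>
    Qcurv_eq_of_isSol hn (by omega) hV hdet hH hx⟩, fun V G c hV hdet hG hric x hx =>
    Ein.Qcurv_einstein hn (by omega) hV hG hdet hric hx, ?_⟩
  obtain ⟨c⟩ := Mf.nonempty_chartCover n M
  have hneck : ∀ W : Set (E n), IsOpen W → W.Nonempty → HasNeck n W := by
    intro W hW hne
    obtain ⟨a, b, ha, hb, hab, l, hl, hq⟩ := exists_sQ_pos n hn h6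
    obtain ⟨V, K, χ, D, hV, hVW, hK, hKV, hχ, hχ0, hχK, hpos, hD⟩ :=
      exists_model a b (by omega) (by omega) hab W hW hne
    exact hasNeck_of_model hV hVW hK hKV hχ hχ0 hχK hpos hD hl hq
  obtain ⟨g, hg⟩ := Mf.unbounded_of_neck hneck c
  refine ⟨⟨c⟩, fun g c c' => totalQ_indep n M g c c', g, fun c' => ?_⟩
  simpa only [totalQ_indep n M _ c' c] using hg

end Pool.Agent.Results.MP_993073_gt.TotalQUnbounded
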